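import Pool.Agent.helper62.QU.Spec

/-!
# Row COM: the convolution commutes with the Laplace operator
-/

open scoped MatrixGroups ContDiff Topology UpperHalfPlane
open UpperHalfPlane MeasureTheory Filter Set

namespace Pool.Agent.QU

theorem COM (h1 : TTT_stmt) (h2 : CA1_stmt) (h3 : LAK_stmt) (h4 : GRN_stmt) : COM_stmt := by
  intro E _ _ _ κ φ hκ hφ z
  obtain ⟨-, -, hsymm, -⟩ := h1
  obtain ⟨hCD, hlap, hsupp, -, -⟩ := h3
  have hκ2 : ContDiff ℝ 2 κ := hκ.smooth.of_le (WithTop.coe_le_coe.2 le_top)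
  unfold conv
  have e1 : ∀ w, κ (tt z w) = κ (tt w z) := fun w => by rw [hsymm z w]
  have e2 : ∀ w, LL κ (tt z w) = lap (fun w => κ (tt w z)) w := fun w => by
    rw [hlap κ z w hκ2, hsymm z w]
  simp only [e1, e2]
  exact h4 E (fun w => κ (tt w z)) φ (hCD κ 2 z hκ2) hφ (hsupp κ z hκ)

end Pool.Agent.QU
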